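import Pool.Agent.Helper89.Plane.Final

/-!
# Analytic actions of surface groups on the plane do not satisfy the Milnor-Wood inequality

For every `g ≥ 2` and every integer `e` there is an action of the genus `g` surface group on the plane
by orientation-preserving real-analytic diffeomorphisms whose Euler number is `e`.
-/

set_option autoImplicit false

open Pool.Agent.Helper89.Plane

namespace Pool.Agent.Results.MP_aecd5f_gt.AnalyticMilnorWoodFails

theorem result (g : ℕ) (hg : 2 ≤ g) (e : ℤ) :
    ∃ ρ : SurfaceGroup g →* (ℂ ≃ₜ ℂ),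
      (∀ γ, AnalyticOnNhd ℝ (ρ γ) Set.univ) ∧ (∀ γ z, 0 < (fderiv ℝ (ρ γ) z).det) ∧
      HasEulerNumber ρ e := by
  obtain ⟨ρ, h1, h2⟩ := main g hg e
  exact ⟨ρ, fun γ => (h1 γ).1, fun γ => (h1 γ).2.2, h2⟩

end Pool.Agent.Results.MP_aecd5f_gt.AnalyticMilnorWoodFails
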